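import Mathlib

/-!
# MP_523de7_an : lower growth rate versus Hausdorff dimension for beta-expansions

We disprove the conjecture: there are `β ∈ (1,2)` and `x ∈ I_β` with positive lower growth rate of
the number of `k`-prefixes, such that `Σ_β(x)` is countable (hence of Hausdorff dimension `0`).
-/

namespace Pool.Agent.Results.MP_523de7_an.CountableExpansions

open Filter Set Topology

/-- Infinite 0-1 sequences; position `i` (from `0`) holds the digit of index `i + 1`. -/
def Seq : Type := ℕ → Bool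

/-- The first (one-based) index at which `y` and `z` differ. -/
noncomputable def firstIndex (y z : Seq) : ℕ := sInf {i : ℕ | y i ≠ z i} + 1

theorem agree_of_lt {y z : Seq} {i : ℕ} (h : i + 1 < firstIndex y z) : y i = z i := by
  by_contra hne
  have : sInf {i : ℕ | y i ≠ z i} ≤ i := Nat.sInf_le hne
  unfold firstIndex at h
  omega

theorem differ_at {y z : Seq} (h : y ≠ z) : y (firstIndex y z - 1) ≠ z (firstIndex y z - 1) := by
  have hne : {i : ℕ | y i ≠ z i}.Nonempty := by
    by_contra hc
    rw [Set.not_nonempty_iff_eq_empty] at hc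
    apply h
    funext i
    by_contra hi
    have : i ∈ {i : ℕ | y i ≠ z i} := hi
    rw [hc] at this
    exact this
  have := Nat.sInf_mem hne
  unfold firstIndex
  simpa using this

theorem firstIndex_comm (y z : Seq) : firstIndex y z = firstIndex z y := by
  unfold firstIndex
  congr 1
  congr 1
  ext i
  simp [ne_comm]

theorem firstIndex_pos (y z : Seq) : 0 < firstIndex y z := by
  unfold firstIndex; omega

theorem min_firstIndex {x y z : Seq} (h : x ≠ z) :
    min (firstIndex x y) (firstIndex y z) ≤ firstIndex x z := by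
  by_contra hlt
  push Not at hlt
  have h1 := differ_at h
  have hp := firstIndex_pos x z
  apply h1
  rw [agree_of_lt (y := x) (z := y) (i := firstIndex x z - 1)
      (by have := lt_min_iff.1 hlt; omega),
    agree_of_lt (y := y) (z := z) (i := firstIndex x z - 1)
      (by have := lt_min_iff.1 hlt; omega)]

open Classical in
/-- The metric `d(y,z) = 2 ^ (-n(y,z))` of the problem, with `n(y,z)` the first index at which
the two sequences differ. -/
noncomputable instance : MetricSpace Seq where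
  dist y z := if y = z then 0 else (1 / 2 : ℝ) ^ firstIndex y z
  dist_self y := by simp
  dist_comm y z := by
    by_cases h : y = z
    · simp [h]
    · simp [h, Ne.symm h, firstIndex_comm y z]
  dist_triangle x y z := by
    by_cases h1 : x = z
    · simp only [h1, if_true]
      positivity
    by_cases h2 : x = y
    · simp [h2]
    by_cases h3 : y = z
    · simp [h3]
    simp only [h1, h2, h3, if_false]
    have hm := min_firstIndex (x := x) (y := y) (z := z) h1
    have ha : (0 : ℝ) < (1 / 2 : ℝ) ^ firstIndex x y := by positivity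
    have hb : (0 : ℝ) < (1 / 2 : ℝ) ^ firstIndex y z := by positivity
    rcases min_le_iff.1 hm with h | h
    · have := pow_le_pow_of_le_one (by norm_num : (0:ℝ) ≤ 1/2) (by norm_num) h
      linarith
    · have := pow_le_pow_of_le_one (by norm_num : (0:ℝ) ≤ 1/2) (by norm_num) h
      linarith
  eq_of_dist_eq_zero := by
    intro y z h
    by_contra hne
    simp only [hne, if_false] at h
    have : (0 : ℝ) < (1 / 2 : ℝ) ^ firstIndex y z := by positivity
    linarith

/-- A binary digit as a real number. -/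
noncomputable def dig (b : Bool) : ℝ := if b then 1 else 0

/-- `Σ_β(x)`: the set of `β`-expansions of `x`. -/
def Expansions (β x : ℝ) : Set Seq :=
  {ε | HasSum (fun n : ℕ => dig (ε n) / β ^ (n + 1)) x}

/-- `N_k(x,β)`: the number of words of length `k` which are the initial segment of some
`β`-expansion of `x`. -/
noncomputable def numPrefixes (k : ℕ) (x β : ℝ) : ℕ :=
  Set.ncard {w : Fin k → Bool | ∃ ε ∈ Expansions β x, ∀ i : Fin k, w i = ε i}

/-- The lower growth rate. -/
noncomputable def lowerGrowth (x β : ℝ) : ℝ :=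
  liminf (fun k : ℕ => Real.logb 2 (numPrefixes k x β) / k) atTop


/-! ### Values of sequences -/

/-- The shifted sequence. -/
def sh (n : ℕ) (ε : Seq) : Seq := fun i => ε (n + i)

theorem sh_zero (ε : Seq) : sh 0 ε = ε := by
  funext i; simp [sh]

theorem sh_sh (m n : ℕ) (ε : Seq) : sh n (sh m ε) = sh (m + n) ε := by
  funext i; simp [sh, Nat.add_assoc]

/-- The value of a sequence. -/
noncomputable def val (β : ℝ) (ε : Seq) : ℝ := ∑' n : ℕ, dig (ε n) / β ^ (n + 1)

theorem dig_nonneg (b : Bool) : 0 ≤ dig b := by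
  unfold dig; split <;> norm_num

theorem dig_le_one (b : Bool) : dig b ≤ 1 := by
  unfold dig; split <;> norm_num

theorem geom_hasSum {β : ℝ} (hβ : 1 < β) :
    HasSum (fun n : ℕ => 1 / β ^ (n + 1)) (1 / (β - 1)) := by
  have h0 : (0 : ℝ) < β := by linarith
  have h1 : |1 / β| < 1 := by
    rw [abs_of_pos (by positivity)]
    rw [div_lt_one h0]; exact hβ
  have h := (hasSum_geometric_of_abs_lt_one h1).mul_left (1 / β)
  have e1 : (fun n : ℕ => 1 / β * (1 / β) ^ n) = fun n : ℕ => 1 / β ^ (n + 1) := by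
    funext n
    rw [div_pow, one_pow, pow_succ]
    field_simp
  have e2 : 1 / β * (1 - 1 / β)⁻¹ = 1 / (β - 1) := by
    have : β - 1 ≠ 0 := by linarith
    have h3 : (1 : ℝ) - 1 / β = (β - 1) / β := by field_simp
    rw [h3]
    field_simp
  rw [e1, e2] at h
  exact h

theorem summable_val {β : ℝ} (hβ : 1 < β) (ε : Seq) :
    Summable (fun n : ℕ => dig (ε n) / β ^ (n + 1)) := by
  have h0 : (0 : ℝ) < β := by linarith
  refine Summable.of_nonneg_of_le ?_ ?_ (geom_hasSum hβ).summable
  · intro n
    exact div_nonneg (dig_nonneg _) (by positivity)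
  · intro n
    exact div_le_div_of_nonneg_right (dig_le_one _) (by positivity)

theorem val_nonneg {β : ℝ} (hβ : 1 < β) (ε : Seq) : 0 ≤ val β ε := by
  have h0 : (0 : ℝ) < β := by linarith
  exact tsum_nonneg fun n => div_nonneg (dig_nonneg _) (by positivity)

theorem val_le {β : ℝ} (hβ : 1 < β) (ε : Seq) : val β ε ≤ 1 / (β - 1) := by
  have h0 : (0 : ℝ) < β := by linarith
  rw [← (geom_hasSum hβ).tsum_eq]
  exact (summable_val hβ ε).tsum_le_tsum
    (fun n => div_le_div_of_nonneg_right (dig_le_one _) (by positivity)) (geom_hasSum hβ).summable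

theorem val_shift {β : ℝ} (hβ : 1 < β) (ε : Seq) :
    val β (sh 1 ε) = β * val β ε - dig (ε 0) := by
  have h0 : (0 : ℝ) < β := by linarith
  have h1 : val β ε = dig (ε 0) / β ^ (0 + 1) + ∑' n : ℕ, dig (ε (n + 1)) / β ^ (n + 1 + 1) :=
    (summable_val hβ ε).tsum_eq_zero_add
  have h2 : ∑' n : ℕ, dig (ε (n + 1)) / β ^ (n + 1 + 1) = (1 / β) * val β (sh 1 ε) := by
    unfold val
    rw [← tsum_mul_left]
    congr 1
    funext n
    have : sh 1 ε n = ε (n + 1) := by simp [sh, Nat.add_comm]
    rw [this, pow_succ β (n + 1)]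
    field_simp
  rw [h2] at h1
  rw [h1]
  field_simp
  ring

theorem val_diff_le {β : ℝ} (hβ : 1 < β) (ε δ : Seq) :
    |val β ε - val β δ| ≤ 1 / (β - 1) := by
  have h1 := val_nonneg hβ ε
  have h2 := val_le hβ ε
  have h3 := val_nonneg hβ δ
  have h4 := val_le hβ δ
  rw [abs_le]
  constructor <;> linarith

theorem mem_expansions {β x : ℝ} (hβ : 1 < β) (ε : Seq) : ε ∈ Expansions β x ↔ val β ε = x := by
  constructor
  · intro h
    exact HasSum.tsum_eq h
  · intro h
    have := (summable_val hβ ε).hasSum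
    change HasSum _ _
    rw [← h]
    exact this

/-! ### The integer automaton -/

/-- Integer coordinates with respect to `1, β, β², β³`. -/
abbrev V := ℤ × ℤ × ℤ × ℤ

/-- Evaluation. -/
def ev (β : ℝ) (v : V) : ℝ := v.1 + v.2.1 * β + v.2.2.1 * β ^ 2 + v.2.2.2 * β ^ 3

/-- A binary digit as an integer. -/
def digZ (b : Bool) : ℤ := if b then 1 else 0

theorem digZ_cast (b : Bool) : ((digZ b : ℤ) : ℝ) = dig b := by
  unfold digZ dig; split <;> simp

/-- Multiplication by `β` (with `β⁴ = β³ + 2β² - 1`) followed by adding `e - ε`. -/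
def stp (e ε : Bool) (v : V) : V :=
  (-v.2.2.2 + digZ e - digZ ε, v.1, v.2.1 + 2 * v.2.2.2, v.2.2.1 + v.2.2.2)

theorem ev_stp {β : ℝ} (hr : β ^ 4 = β ^ 3 + 2 * β ^ 2 - 1) (e ε : Bool) (v : V) :
    ev β (stp e ε v) = β * ev β v + dig e - dig ε := by
  unfold ev stp
  push_cast
  rw [digZ_cast, digZ_cast]
  linear_combination (-(v.2.2.2 : ℝ)) * hr

/-- A lower bound for `10 ^ 12 * ev β v` for `1.9051 ≤ β ≤ 1.9052`. -/
def low (v : V) : ℤ :=
  v.1 * 10 ^ 12 + v.2.1 * (if 0 ≤ v.2.1 then 19051 else 19052) * 10 ^ 8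
    + v.2.2.1 * (if 0 ≤ v.2.2.1 then 19051 ^ 2 else 19052 ^ 2) * 10 ^ 4
    + v.2.2.2 * (if 0 ≤ v.2.2.2 then 19051 ^ 3 else 19052 ^ 3)

theorem aux_low (c : ℤ) (L U : ℤ) (y : ℝ) (hL : (L : ℝ) ≤ y) (hU : y ≤ U) :
    ((c * (if 0 ≤ c then L else U) : ℤ) : ℝ) ≤ c * y := by
  split
  · rename_i h
    push_cast
    exact mul_le_mul_of_nonneg_left hL (by exact_mod_cast h)
  · rename_i h
    push_cast
    exact mul_le_mul_of_nonpos_left hU (by
      have : c ≤ 0 := by omega
      exact_mod_cast this)

theorem low_le {β : ℝ} (h1 : 1.9051 ≤ β) (h2 : β ≤ 1.9052) (v : V) :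
    ((low v : ℤ) : ℝ) ≤ 10 ^ 12 * ev β v := by
  have a1 := aux_low v.2.1 19051 19052 (10 ^ 4 * β) (by push_cast; linarith) (by push_cast; linarith)
  have p2 : (19051 : ℝ) ^ 2 ≤ (10 ^ 4 * β) ^ 2 := pow_le_pow_left₀ (by norm_num) (by linarith) 2
  have q2 : (10 ^ 4 * β) ^ 2 ≤ (19052 : ℝ) ^ 2 := pow_le_pow_left₀ (by linarith) (by linarith) 2
  have p3 : (19051 : ℝ) ^ 3 ≤ (10 ^ 4 * β) ^ 3 := pow_le_pow_left₀ (by norm_num) (by linarith) 3
  have q3 : (10 ^ 4 * β) ^ 3 ≤ (19052 : ℝ) ^ 3 := pow_le_pow_left₀ (by linarith) (by linarith) 3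
  have a2 := aux_low v.2.2.1 (19051 ^ 2) (19052 ^ 2) ((10 ^ 4 * β) ^ 2)
    (by exact_mod_cast p2) (by exact_mod_cast q2)
  have a3 := aux_low v.2.2.2 (19051 ^ 3) (19052 ^ 3) ((10 ^ 4 * β) ^ 3)
    (by exact_mod_cast p3) (by exact_mod_cast q3)
  unfold low ev
  rw [Int.cast_add, Int.cast_add, Int.cast_add, Int.cast_mul, Int.cast_mul, Int.cast_mul _ (10 ^ 4)]
  have e1 : (((10 : ℤ) ^ 8 : ℤ) : ℝ) = 10 ^ 8 := by norm_num
  have e2 : (((10 : ℤ) ^ 4 : ℤ) : ℝ) = 10 ^ 4 := by norm_num
  have e3 : (((10 : ℤ) ^ 12 : ℤ) : ℝ) = 10 ^ 12 := by norm_num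
  rw [e1, e2, e3]
  nlinarith [a1, a2, a3]

/-- Certified exit from the interval `[-1/(β-1), 1/(β-1)]`. -/
def out (v : V) : Bool :=
  decide (111 * 10 ^ 10 < low v) || decide (111 * 10 ^ 10 < low (-v.1, -v.2.1, -v.2.2.1, -v.2.2.2))

theorem not_out {β : ℝ} (h1 : 1.9051 ≤ β) (h2 : β ≤ 1.9052) (v : V)
    (h : |ev β v| ≤ 1 / (β - 1)) : out v = false := by
  have hR : 1 / (β - 1) ≤ 1.11 := by
    rw [div_le_iff₀ (by linarith)]
    linarith
  have hb := abs_le.1 (h.trans hR)
  unfold out
  rw [Bool.or_eq_false_iff]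
  constructor
  · rw [decide_eq_false_iff_not]
    intro hc
    have hc' : ((111 * 10 ^ 10 : ℤ) : ℝ) < ((low v : ℤ) : ℝ) := by exact_mod_cast hc
    have := low_le h1 h2 v
    push_cast at hc'
    linarith
  · rw [decide_eq_false_iff_not]
    intro hc
    have hc' : ((111 * 10 ^ 10 : ℤ) : ℝ) < ((low (-v.1, -v.2.1, -v.2.2.1, -v.2.2.2) : ℤ) : ℝ) := by
      exact_mod_cast hc
    have := low_le h1 h2 (-v.1, -v.2.1, -v.2.2.1, -v.2.2.2)
    have e : ev β (-v.1, -v.2.1, -v.2.2.1, -v.2.2.2) = - ev β v := by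
      unfold ev; push_cast; ring
    rw [e] at this
    push_cast at hc'
    linarith

/-- The first `n` digits. -/
def pre : ℕ → Seq → List Bool
  | 0, _ => []
  | n + 1, ε => ε 0 :: pre n (sh 1 ε)

/-- Running the automaton along a main word and a word. -/
def tr : List Bool → List Bool → V → V
  | e :: X, ε :: w, v => tr X w (stp e ε v)
  | _, _, v => v

/-- All words which stay in the interval, with their end points. -/
def paths : List Bool → V → List (List Bool × V)
  | [], v => if out v then [] else [([], v)]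
  | e :: X, v =>
    if out v then [] else
      (paths X (stp e false v)).map (fun p => (false :: p.1, p.2)) ++
      (paths X (stp e true v)).map (fun p => (true :: p.1, p.2))

theorem ev_tr {β : ℝ} (hβ : 1 < β) (hr : β ^ 4 = β ^ 3 + 2 * β ^ 2 - 1) :
    ∀ (n : ℕ) (e ε : Seq) (v : V),
      ev β (tr (pre n e) (pre n ε) v) - (val β (sh n ε) - val β (sh n e)) =
        β ^ n * (ev β v - (val β ε - val β e)) := by
  intro n
  induction n with
  | zero =>
    intro e ε v
    simp [pre, tr, sh_zero]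
  | succ n ih =>
    intro e ε v
    have h := ih (sh 1 e) (sh 1 ε) (stp (e 0) (ε 0) v)
    rw [sh_sh, sh_sh, Nat.add_comm 1 n, ev_stp hr, val_shift hβ, val_shift hβ] at h
    change ev β (tr (pre n (sh 1 e)) (pre n (sh 1 ε)) (stp (e 0) (ε 0) v)) - _ = _
    rw [h]
    ring

theorem mem_paths {β : ℝ} (h1 : 1.9051 ≤ β) (h2 : β ≤ 1.9052)
    (hr : β ^ 4 = β ^ 3 + 2 * β ^ 2 - 1) :
    ∀ (n : ℕ) (e ε : Seq) (v : V), ev β v = val β ε - val β e →
      (pre n ε, tr (pre n e) (pre n ε) v) ∈ paths (pre n e) v := by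
  have hβ : 1 < β := by linarith
  intro n
  induction n with
  | zero =>
    intro e ε v hv
    have ho : out v = false := not_out h1 h2 v (by rw [hv]; exact val_diff_le hβ ε e)
    simp [pre, tr, paths, ho]
  | succ n ih =>
    intro e ε v hv
    have ho : out v = false := not_out h1 h2 v (by rw [hv]; exact val_diff_le hβ ε e)
    have h := ih (sh 1 e) (sh 1 ε) (stp (e 0) (ε 0) v) (by
      rw [ev_stp hr, val_shift hβ, val_shift hβ, hv]; ring)
    change (ε 0 :: pre n (sh 1 ε), tr (pre n (sh 1 e)) (pre n (sh 1 ε)) (stp (e 0) (ε 0) v)) ∈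
      paths (e 0 :: pre n (sh 1 e)) v
    simp only [paths, ho, Bool.false_eq_true, if_false, List.mem_append, List.mem_map]
    cases hε : ε 0 with
    | false =>
      left
      rw [hε] at h
      exact ⟨_, h, rfl⟩
    | true =>
      right
      rw [hε] at h
      exact ⟨_, h, rfl⟩


/-! ### The main sequence -/

/-- The ordinary block `1000100`. -/
def wB : List Bool := [true, false, false, false, true, false, false]

/-- The special block `1000101`. -/
def wD : List Bool := [true, false, false, false, true, false, true]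

/-- The two blocks. -/
def wX (X : Bool) : List Bool := if X then wD else wB

open Classical in
/-- The special block is used at the block positions `2, 4, 8, 16, ...`. -/
noncomputable def isD (i : ℕ) : Bool := decide (∃ j : ℕ, i = 2 ^ (j + 1))

theorem isD_iff (i : ℕ) : isD i = true ↔ ∃ j : ℕ, i = 2 ^ (j + 1) := by
  simp [isD]

theorem isD_succ {i : ℕ} (h : isD i = true) : isD (i + 1) = false := by
  rw [Bool.eq_false_iff]
  intro h2
  rw [isD_iff] at h h2
  obtain ⟨j, hj⟩ := h
  obtain ⟨k, hk⟩ := h2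
  rw [pow_succ] at hj hk
  omega

theorem isD_between {j i : ℕ} (h1 : 2 ^ (j + 1) < i) (h2 : i < 2 ^ (j + 2)) : isD i = false := by
  rw [Bool.eq_false_iff]
  intro h
  rw [isD_iff] at h
  obtain ⟨k, hk⟩ := h
  rw [hk] at h1 h2
  have h3 := (Nat.pow_lt_pow_iff_right (by norm_num : 1 < 2)).1 h1
  have h4 := (Nat.pow_lt_pow_iff_right (by norm_num : 1 < 2)).1 h2
  omega

/-- The sequence with prescribed blocks of length `7`. -/
def ofBlocks (ω : ℕ → List Bool) : Seq := fun n => (ω (n / 7)).getD (n % 7) false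

theorem pre_ofBlocks (ω : ℕ → List Bool) (i : ℕ) (h : (ω i).length = 7) :
    pre 7 (sh (7 * i) (ofBlocks ω)) = ω i := by
  have key : ∀ r, r < 7 → ofBlocks ω (7 * i + r) = (ω i).getD r false := by
    intro r hr
    unfold ofBlocks
    have h1 : (7 * i + r) / 7 = i := by omega
    have h2 : (7 * i + r) % 7 = r := by omega
    rw [h1, h2]
  match hω : ω i, h with
  | [a0, a1, a2, a3, a4, a5, a6], _ =>
    simp only [pre, sh]
    rw [hω] at key
    have k0 := key 0 (by norm_num)
    have k1 := key 1 (by norm_num)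
    have k2 := key 2 (by norm_num)
    have k3 := key 3 (by norm_num)
    have k4 := key 4 (by norm_num)
    have k5 := key 5 (by norm_num)
    have k6 := key 6 (by norm_num)
    simp at k0 k1 k2 k3 k4 k5 k6
    simp [k0, k1, k2, k3, k4, k5, k6]

/-- The main expansion. -/
noncomputable def main : Seq := ofBlocks (fun i => wX (isD i))

theorem pre_main (i : ℕ) : pre 7 (sh (7 * i) main) = wX (isD i) := by
  apply pre_ofBlocks
  unfold wX
  split <;> rfl

/-- Equality of the digits from equality of the blocks. -/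
theorem eq_of_pre {ε δ : Seq} {n : ℕ} :
    ∀ {r : ℕ}, pre n ε = pre n δ → r < n → ε r = δ r := by
  induction n generalizing ε δ with
  | zero => intro r _ h; omega
  | succ n ih =>
    intro r h hr
    simp only [pre, List.cons.injEq] at h
    cases r with
    | zero => exact h.1
    | succ r =>
      have := ih (ε := sh 1 ε) (δ := sh 1 δ) h.2 (r := r) (by omega)
      simpa [sh, Nat.add_comm] using this

/-! ### The states -/

/-- The main state. -/
def m0 : V := (0, 0, 0, 0)
/-- The first growing state. -/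
def g1 : V := (-2, -1, 1, 0)
/-- The second growing state. -/
def g2 : V := (-2, 1, 2, -1)
/-- The first frozen state. -/
def f1 : V := (0, 0, 2, -1)
/-- The second frozen state. -/
def f2 : V := (-2, -1, 3, -1)

/-- The surviving states. -/
def G : List V := [m0, g1, g2, f1, f2]

/-- The growing states. -/
def Gr : List V := [g1, g2]

/-- The frozen states. -/
def Fr : List V := [f1, f2]

theorem K1 : ∀ v ∈ G, ∀ X : Bool, ∀ p ∈ paths (wX X) v, p.2 ∈ G ∨
    (paths wB p.2 = [] ∧ ∀ q ∈ paths wD p.2, paths wB q.2 = []) := by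
  decide +kernel

theorem K2a : ∀ v ∈ Fr, ∀ X : Bool, ∀ p ∈ paths (wX X) v, p.2 ∈ G → p.2 ∈ Fr := by
  decide +kernel

theorem K2b : ∀ v ∈ Fr, ∀ X : Bool, ∀ p ∈ paths (wX X) v, ∀ q ∈ paths (wX X) v,
    p.2 ∈ G → q.2 ∈ G → p = q := by
  decide +kernel

theorem K3 : ∀ X : Bool, ∀ p ∈ paths (wX X) m0, p.2 ∈ G → p = (wX X, m0) ∨ p.2 ∈ Gr := by
  decide +kernel

theorem K4 : ∀ v ∈ Gr, ∀ p ∈ paths wD v, p.2 ∈ G → p.2 ∈ Fr := by
  decide +kernel

theorem K5 : ∀ v ∈ Gr, ∀ p ∈ paths wB v, p.2 ∈ G → p.2 ∈ Gr := by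
  decide +kernel

/-- The states at the block boundaries. -/
noncomputable def st (ε : Seq) : ℕ → V
  | 0 => m0
  | i + 1 => tr (pre 7 (sh (7 * i) main)) (pre 7 (sh (7 * i) ε)) (st ε i)

set_option linter.unusedSectionVars false

section
variable {β : ℝ} (h1 : 1.9051 ≤ β) (h2 : β ≤ 1.9052) (hr : β ^ 4 = β ^ 3 + 2 * β ^ 2 - 1)
include h1 h2 hr

theorem ev_st {ε : Seq} (hε : val β ε = val β main) (i : ℕ) :
    ev β (st ε i) = val β (sh (7 * i) ε) - val β (sh (7 * i) main) := by
  have hβ : 1 < β := by linarith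
  induction i with
  | zero =>
    simp [st, m0, ev, sh_zero, hε]
  | succ i ih =>
    have h := ev_tr hβ hr 7 (sh (7 * i) main) (sh (7 * i) ε) (st ε i)
    rw [ih, sub_self, mul_zero, sh_sh, sh_sh] at h
    have e : 7 * i + 7 = 7 * (i + 1) := by ring
    rw [e] at h
    change ev β (tr (pre 7 (sh (7 * i) main)) (pre 7 (sh (7 * i) ε)) (st ε i)) = _
    linarith

theorem mem_st {ε : Seq} (hε : val β ε = val β main) (i : ℕ) :
    (pre 7 (sh (7 * i) ε), st ε (i + 1)) ∈ paths (wX (isD i)) (st ε i) := by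
  have h := mem_paths h1 h2 hr 7 (sh (7 * i) main) (sh (7 * i) ε) (st ε i)
    (ev_st h1 h2 hr hε i)
  have h3 := pre_main i
  change (pre 7 (sh (7 * i) ε), tr (pre 7 (sh (7 * i) main)) (pre 7 (sh (7 * i) ε)) (st ε i)) ∈ _
  rw [← h3]
  exact h

theorem st_good {ε : Seq} (hε : val β ε = val β main) (i : ℕ) : st ε i ∈ G := by
  induction i with
  | zero => simp [st, G]
  | succ i ih =>
    have hm := mem_st h1 h2 hr hε i
    rcases K1 _ ih _ _ hm with h | ⟨ha, hb⟩
    · exact h
    · exfalso
      have hm1 := mem_st h1 h2 hr hε (i + 1)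
      have hm2 := mem_st h1 h2 hr hε (i + 1 + 1)
      simp only at ha hb
      cases hD : isD (i + 1) with
      | false =>
        rw [hD] at hm1
        simp only [wX, Bool.false_eq_true, if_false] at hm1
        rw [ha] at hm1
        simp at hm1
      | true =>
        have hD2 := isD_succ hD
        rw [hD] at hm1
        rw [hD2] at hm2
        simp only [wX, Bool.false_eq_true, if_false, if_true] at hm1 hm2
        have := hb _ hm1
        simp only at this
        rw [this] at hm2
        simp at hm2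

theorem main_or_frozen {ε : Seq} (hε : val β ε = val β main) :
    ε = main ∨ ∃ i, st ε i ∈ Fr := by
  by_cases hall : ∀ i, st ε i = m0
  · left
    funext n
    have hm := mem_st h1 h2 hr hε (n / 7)
    rw [hall (n / 7)] at hm
    have hg := st_good h1 h2 hr hε (n / 7 + 1)
    rcases K3 _ _ hm hg with h | h
    · have hp : pre 7 (sh (7 * (n / 7)) ε) = pre 7 (sh (7 * (n / 7)) main) := by
        rw [pre_main]
        exact (Prod.mk.inj h).1
      have := eq_of_pre (r := n % 7) hp (Nat.mod_lt _ (by norm_num))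
      simp only [sh] at this
      rw [Nat.div_add_mod] at this
      exact this
    · exfalso
      simp only at h
      rw [hall] at h
      revert h
      decide
  · right
    push Not at hall
    obtain ⟨i, hi⟩ := hall
    by_contra hcon
    push Not at hcon
    have hgr : ∀ n, st ε (i + n) ∈ Gr := by
      intro n
      induction n with
      | zero =>
        have hg := st_good h1 h2 hr hε i
        have hf := hcon i
        simp only [G, Gr, Fr, List.mem_cons, List.not_mem_nil, or_false, Nat.add_zero] at hg hf ⊢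
        tauto
      | succ n ih =>
        have hm := mem_st h1 h2 hr hε (i + n)
        have hg := st_good h1 h2 hr hε (i + n + 1)
        cases hD : isD (i + n) with
        | false =>
          rw [hD] at hm
          exact K5 _ ih _ hm hg
        | true =>
          rw [hD] at hm
          exact absurd (K4 _ ih _ hm hg) (hcon _)
    have hlt : i < 2 ^ (i + 1) := by
      calc i < i + 1 := Nat.lt_succ_self i
        _ < 2 ^ (i + 1) := Nat.lt_two_pow_self
    obtain ⟨n, hn⟩ := Nat.exists_eq_add_of_le hlt.le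
    have hD : isD (i + n) = true := by
      rw [isD_iff]
      exact ⟨i, hn.symm⟩
    have hm := mem_st h1 h2 hr hε (i + n)
    have hg := st_good h1 h2 hr hε (i + n + 1)
    rw [hD] at hm
    exact absurd (K4 _ (hgr n) _ hm hg) (hcon _)

theorem frozen_unique {ε δ : Seq} (hε : val β ε = val β main) (hδ : val β δ = val β main)
    {i : ℕ} (hs : st ε i = st δ i) (hf : st ε i ∈ Fr) (hp : ∀ r, r < 7 * i → ε r = δ r) :
    ε = δ := by
  have key : ∀ n, st ε (i + n) = st δ (i + n) ∧ st ε (i + n) ∈ Fr := by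
    intro n
    induction n with
    | zero => exact ⟨hs, hf⟩
    | succ n ih =>
      obtain ⟨ha, hb⟩ := ih
      have hm1 := mem_st h1 h2 hr hε (i + n)
      have hm2 := mem_st h1 h2 hr hδ (i + n)
      have hg1 := st_good h1 h2 hr hε (i + n + 1)
      have hg2 := st_good h1 h2 hr hδ (i + n + 1)
      rw [← ha] at hm2
      refine ⟨?_, K2a _ hb _ _ hm1 hg1⟩
      have := K2b _ hb _ _ hm1 _ hm2 hg1 hg2
      exact (Prod.mk.inj this).2
  funext n
  by_cases hn : n < 7 * i
  · exact hp n hn
  · obtain ⟨m, hm⟩ : ∃ m, n / 7 = i + m := by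
      refine ⟨n / 7 - i, ?_⟩
      omega
    obtain ⟨ha, hb⟩ := key m
    have hm1 := mem_st h1 h2 hr hε (i + m)
    have hm2 := mem_st h1 h2 hr hδ (i + m)
    have hg1 := st_good h1 h2 hr hε (i + m + 1)
    have hg2 := st_good h1 h2 hr hδ (i + m + 1)
    rw [← ha] at hm2
    have h := K2b _ hb _ _ hm1 _ hm2 hg1 hg2
    have hpp := (Prod.mk.inj h).1
    have := eq_of_pre (r := n % 7) hpp (Nat.mod_lt _ (by norm_num))
    simp only [sh] at this
    rw [← hm, Nat.div_add_mod] at this
    exact this

theorem countable_expansions : (Expansions β (val β main)).Countable := by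
  have hβ : 1 < β := by linarith
  have hsub : Expansions β (val β main) ⊆ {main} ∪ ⋃ i : ℕ,
      {ε : Seq | val β ε = val β main ∧ st ε i ∈ Fr} := by
    intro ε hε
    rw [mem_expansions hβ] at hε
    rcases main_or_frozen h1 h2 hr hε with h | ⟨i, hi⟩
    · left; exact h
    · right
      rw [Set.mem_iUnion]
      exact ⟨i, hε, hi⟩
  refine Set.Countable.mono hsub (Set.Countable.union (Set.countable_singleton _)
    (Set.countable_iUnion fun i => ?_))
  have hinj : Set.InjOn (fun ε : Seq => ((fun r : Fin (7 * i) => ε r), st ε i))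
      {ε : Seq | val β ε = val β main ∧ st ε i ∈ Fr} := by
    intro ε hε δ hδ he
    obtain ⟨he1, he2⟩ := Prod.mk.inj he
    refine frozen_unique h1 h2 hr hε.1 hδ.1 he2 hε.2 ?_
    intro r hr'
    exact congrFun he1 ⟨r, hr'⟩
  exact Set.countable_of_injective_of_countable_image hinj (Set.to_countable _)

end


/-! ### The exponentially many frozen expansions -/

/-- The states, numbered. -/
def vs : ℕ → V
  | 0 => m0
  | 1 => g1
  | 2 => g2
  | 3 => f1
  | _ => f2

/-- The block word for a transition of states under a block. -/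
def wd : ℕ → Bool → ℕ → List Bool
  | 0, false, 0 => wB
  | 0, true, 0 => wD
  | 0, false, 1 => [false, true, true, true, true, true, true]
  | 1, false, 1 => [false, false, true, true, true, true, true]
  | 1, false, 2 => [false, true, false, false, false, false, true]
  | 2, false, 1 => [true, false, true, true, true, true, true]
  | 2, false, 2 => [true, true, false, false, false, false, true]
  | 1, true, 3 => [false, true, false, false, false, true, false]
  | 2, true, 3 => [true, true, false, false, false, true, false]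
  | 3, false, 4 => [true, true, false, true, false, true, true]
  | 4, false, 4 => [true, false, false, true, false, true, true]
  | 3, true, 3 => [true, true, false, true, true, false, false]
  | 4, true, 3 => [true, false, false, true, true, false, false]
  | _, _, _ => []

/-- Valid transitions. -/
def ok (s : ℕ) (X : Bool) (t : ℕ) : Prop :=
  (wd s X t).length = 7 ∧ tr (wX X) (wd s X t) (vs s) = vs t

instance (s : ℕ) (X : Bool) (t : ℕ) : Decidable (ok s X t) := by
  unfold ok; infer_instance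

/-- The sequence belonging to a sequence of states. -/
noncomputable def seqOf (τ : ℕ → ℕ) : Seq := ofBlocks (fun i => wd (τ i) (isD i) (τ (i + 1)))

theorem pre_seqOf {τ : ℕ → ℕ} (hok : ∀ i, ok (τ i) (isD i) (τ (i + 1))) (i : ℕ) :
    pre 7 (sh (7 * i) (seqOf τ)) = wd (τ i) (isD i) (τ (i + 1)) :=
  pre_ofBlocks _ _ (hok i).1

theorem vs_bound (β : ℝ) : ∃ C : ℝ, ∀ n, |ev β (vs n)| ≤ C := by
  refine ⟨|ev β m0| + |ev β g1| + |ev β g2| + |ev β f1| + |ev β f2|, ?_⟩
  intro n
  have a0 := abs_nonneg (ev β m0)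
  have a1 := abs_nonneg (ev β g1)
  have a2 := abs_nonneg (ev β g2)
  have a3 := abs_nonneg (ev β f1)
  have a4 := abs_nonneg (ev β f2)
  match n with
  | 0 => change |ev β m0| ≤ _; linarith
  | 1 => change |ev β g1| ≤ _; linarith
  | 2 => change |ev β g2| ≤ _; linarith
  | 3 => change |ev β f1| ≤ _; linarith
  | n + 4 => change |ev β f2| ≤ _; linarith

theorem val_seqOf {β : ℝ} (hβ : 1 < β) (hr : β ^ 4 = β ^ 3 + 2 * β ^ 2 - 1)
    {τ : ℕ → ℕ} (h0 : τ 0 = 0) (hok : ∀ i, ok (τ i) (isD i) (τ (i + 1))) :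
    val β (seqOf τ) = val β main := by
  obtain ⟨C, hC⟩ := vs_bound β
  have key : ∀ i, ev β (vs (τ i)) - (val β (sh (7 * i) (seqOf τ)) - val β (sh (7 * i) main)) =
      (β ^ 7) ^ i * (-(val β (seqOf τ) - val β main)) := by
    intro i
    induction i with
    | zero =>
      rw [h0]
      simp [vs, m0, ev, sh_zero]
    | succ i ih =>
      have h := ev_tr hβ hr 7 (sh (7 * i) main) (sh (7 * i) (seqOf τ)) (vs (τ i))
      rw [sh_sh, sh_sh, pre_main, pre_seqOf hok, (hok i).2, ih] at h
      have e : 7 * i + 7 = 7 * (i + 1) := by ring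
      rw [e] at h
      rw [h, pow_succ]
      ring
  by_contra hne
  have hpos : 0 < |val β (seqOf τ) - val β main| := abs_pos.2 (sub_ne_zero.2 hne)
  have hb : 1 < β ^ 7 := one_lt_pow₀ hβ (by norm_num)
  have hlim := tendsto_pow_atTop_atTop_of_one_lt hb
  obtain ⟨i, hi⟩ := (hlim.eventually_gt_atTop
    ((C + 1 / (β - 1)) / |val β (seqOf τ) - val β main|)).exists
  rw [div_lt_iff₀ hpos] at hi
  have h := congrArg (fun x => |x|) (key i)
  simp only [abs_mul, abs_neg] at h
  rw [abs_of_pos (by positivity : (0 : ℝ) < (β ^ 7) ^ i)] at h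
  have h3 := abs_sub (ev β (vs (τ i))) (val β (sh (7 * i) (seqOf τ)) - val β (sh (7 * i) main))
  have h4 := val_diff_le hβ (sh (7 * i) (seqOf τ)) (sh (7 * i) main)
  have h5 := hC (τ i)
  linarith


open Classical in
/-- The state sequence of stage `j` with choices `c`. -/
noncomputable def tau (j : ℕ) (c : ℕ → Bool) (i : ℕ) : ℕ :=
  if i ≤ 2 ^ (j + 1) + 1 then 0
  else if i = 2 ^ (j + 1) + 2 then 1
  else if i ≤ 2 ^ (j + 2) then (if c i then 2 else 1)
  else if isD (i - 1) then 3 else 4

theorem ok00 (X : Bool) : ok 0 X 0 := by revert X; decide +kernel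
theorem ok01 : ok 0 false 1 := by decide +kernel
theorem okgg (b c : Bool) : ok (if b then 2 else 1) false (if c then 2 else 1) := by
  revert b c; decide +kernel
theorem okg3 (b : Bool) : ok (if b then 2 else 1) true 3 := by
  revert b; decide +kernel
theorem okff (b X : Bool) : ok (if b then 3 else 4) X (if X then 3 else 4) := by
  revert b X; decide +kernel

theorem tau_ok (j : ℕ) (hj : 1 ≤ j) (c : ℕ → Bool) (i : ℕ) :
    ok (tau j c i) (isD i) (tau j c (i + 1)) := by
  have ha : 4 ≤ 2 ^ (j + 1) := by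
    calc 4 = 2 ^ 2 := by norm_num
      _ ≤ 2 ^ (j + 1) := Nat.pow_le_pow_right (by norm_num) (by omega)
  have hab : 2 ^ (j + 2) = 2 * 2 ^ (j + 1) := by rw [pow_succ 2 (j + 1)]; ring
  have hbet := fun h1 h2 => isD_between (j := j) (i := i) h1 h2
  have hDb : isD (2 ^ (j + 2)) = true := (isD_iff _).2 ⟨j + 1, rfl⟩
  unfold tau
  generalize 2 ^ (j + 2) = b at *
  generalize 2 ^ (j + 1) = a at *
  rcases Nat.lt_or_ge a i with h1 | h1
  · rcases Nat.lt_or_ge i b with h2 | h2
    · rw [hbet h1 h2]
      have e1 : ¬ (i + 1 ≤ a + 1) := by omega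
      have e2 : i + 1 ≤ b := by omega
      rcases Nat.lt_or_ge (a + 1) i with h3 | h3
      · have e3 : ¬ (i ≤ a + 1) := by omega
        have e4 : ¬ (i + 1 = a + 2) := by omega
        have e5 : i ≤ b := by omega
        simp only [e1, e2, e3, e4, e5, if_true, if_false]
        by_cases e6 : i = a + 2
        · simp only [e6, if_true]
          exact okgg false _
        · simp only [e6, if_false]
          exact okgg _ _
      · have e3 : i ≤ a + 1 := h3
        have e4 : i + 1 = a + 2 := by omega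
        simp only [e3, e4, if_true]
        have e7 : ¬ (a + 2 ≤ a + 1) := by omega
        simp only [e7, if_false]
        exact ok01
    · have e1 : ¬ (i + 1 ≤ a + 1) := by omega
      have e2 : ¬ (i + 1 ≤ b) := by omega
      have e3 : ¬ (i ≤ a + 1) := by omega
      have e4 : ¬ (i + 1 = a + 2) := by omega
      have e6 : ¬ (i = a + 2) := by omega
      simp only [e1, e2, e3, e4, e6, if_false]
      rcases Nat.lt_or_ge b i with h3 | h3
      · have e5 : ¬ (i ≤ b) := by omega
        simp only [e5, if_false, Nat.add_sub_cancel]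
        exact okff _ _
      · have e5 : i = b := by omega
        rw [e5]
        simp only [le_refl, if_true, Nat.add_sub_cancel, hDb]
        exact okg3 _
  · have e1 : i ≤ a + 1 := by omega
    have e2 : i + 1 ≤ a + 1 := by omega
    simp only [e1, e2, if_true]
    exact ok00 _

theorem second_digit (b c : Bool) :
    (wd (if b then 2 else 1) false (if c then 2 else 1)).getD 1 false = c := by
  revert b c; decide

theorem seqOf_tau (j : ℕ) (_hj : 1 ≤ j) (c : ℕ → Bool) (i : ℕ) (h1 : 2 ^ (j + 1) + 2 ≤ i)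
    (h2 : i < 2 ^ (j + 2)) : seqOf (tau j c) (7 * i + 1) = c (i + 1) := by
  have hD : isD i = false := isD_between (j := j) (by omega) h2
  have e1 : (7 * i + 1) / 7 = i := by omega
  have e2 : (7 * i + 1) % 7 = 1 := by omega
  unfold seqOf ofBlocks
  rw [e1, e2]
  beta_reduce
  rw [hD]
  have t2 : tau j c (i + 1) = if c (i + 1) then 2 else 1 := by
    unfold tau
    have a1 : ¬ (i + 1 ≤ 2 ^ (j + 1) + 1) := by omega
    have a2 : ¬ (i + 1 = 2 ^ (j + 1) + 2) := by omega
    have a3 : i + 1 ≤ 2 ^ (j + 2) := by omega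
    simp only [a1, a2, a3, if_true, if_false]
  have t1 : ∃ b : Bool, tau j c i = if b then 2 else 1 := by
    by_cases hi : i = 2 ^ (j + 1) + 2
    · refine ⟨false, ?_⟩
      unfold tau
      have a1 : ¬ (i ≤ 2 ^ (j + 1) + 1) := by omega
      simp only [a1, if_false]
      rw [if_pos hi]
      simp
    · refine ⟨c i, ?_⟩
      unfold tau
      have a1 : ¬ (i ≤ 2 ^ (j + 1) + 1) := by omega
      have a3 : i ≤ 2 ^ (j + 2) := by omega
      simp only [a1, hi, a3, if_true, if_false]
  obtain ⟨b, hb⟩ := t1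
  rw [t2, hb]
  exact second_digit _ _

theorem numPrefixes_ge {β : ℝ} (hβ : 1 < β) (hr : β ^ 4 = β ^ 3 + 2 * β ^ 2 - 1)
    (j : ℕ) (hj : 1 ≤ j) (k : ℕ) (hk : 7 * 2 ^ (j + 2) ≤ k) :
    2 ^ (2 ^ (j + 1) - 2) ≤ numPrefixes k (val β main) β := by
  have hab : 2 ^ (j + 2) = 2 * 2 ^ (j + 1) := by rw [pow_succ 2 (j + 1)]; ring
  set n : ℕ := 2 ^ (j + 1) - 2 with hn
  let ext : (Fin n → Bool) → ℕ → Bool := fun c i =>
    if h : i - (2 ^ (j + 1) + 3) < n then c ⟨i - (2 ^ (j + 1) + 3), h⟩ else false
  let f : (Fin n → Bool) → (Fin k → Bool) := fun c r => seqOf (tau j (ext c)) r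
  have hf : Function.Injective f := by
    intro c d hcd
    funext r
    have hr1 : r.1 < n := r.2
    have hpos : 7 * (2 ^ (j + 1) + 2 + r.1) + 1 < k := by omega
    have h := congrFun hcd ⟨7 * (2 ^ (j + 1) + 2 + r.1) + 1, hpos⟩
    change seqOf (tau j (ext c)) (7 * (2 ^ (j + 1) + 2 + r.1) + 1) =
      seqOf (tau j (ext d)) (7 * (2 ^ (j + 1) + 2 + r.1) + 1) at h
    rw [seqOf_tau j hj _ _ (by omega) (by omega), seqOf_tau j hj _ _ (by omega) (by omega)] at h
    have e : 2 ^ (j + 1) + 2 + r.1 + 1 - (2 ^ (j + 1) + 3) = r.1 := by omega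
    simp only [ext, e, r.2, dif_pos] at h
    exact h
  have hsub : Set.range f ⊆
      {w : Fin k → Bool | ∃ ε ∈ Expansions β (val β main), ∀ i : Fin k, w i = ε i} := by
    rintro _ ⟨c, rfl⟩
    refine ⟨seqOf (tau j (ext c)), ?_, fun i => rfl⟩
    rw [mem_expansions hβ]
    exact val_seqOf hβ hr (by simp [tau]) (tau_ok j hj _)
  have h1 := Set.ncard_le_ncard hsub (Set.toFinite _)
  have h2 : (Set.range f).ncard = 2 ^ n := by
    rw [← Set.image_univ, Set.ncard_image_of_injective _ hf, Set.ncard_univ]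
    simp
  rw [h2] at h1
  exact h1

theorem numPrefixes_le {β x : ℝ} (k : ℕ) : numPrefixes k x β ≤ 2 ^ k := by
  unfold numPrefixes
  have h := Set.ncard_le_ncard (Set.subset_univ
    {w : Fin k → Bool | ∃ ε ∈ Expansions β x, ∀ i : Fin k, w i = ε i}) (Set.toFinite _)
  rw [Set.ncard_univ] at h
  simpa using h

theorem ratio_ge {β : ℝ} (hβ : 1 < β) (hr : β ^ 4 = β ^ 3 + 2 * β ^ 2 - 1) (k : ℕ)
    (hk : 56 ≤ k) : (1 / 56 : ℝ) ≤ Real.logb 2 (numPrefixes k (val β main) β) / k := by
  -- choose the stage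
  obtain ⟨j, hj, hj1, hj2⟩ : ∃ j, 1 ≤ j ∧ 7 * 2 ^ (j + 2) ≤ k ∧ k < 7 * 2 ^ (j + 3) := by
    have h8 : 8 ≤ k / 7 := by omega
    refine ⟨Nat.log 2 (k / 7) - 2, ?_, ?_, ?_⟩
    · have : 3 ≤ Nat.log 2 (k / 7) := by
        apply Nat.le_log_of_pow_le (by norm_num)
        simpa using h8
      omega
    · have h3 : 3 ≤ Nat.log 2 (k / 7) := by
        apply Nat.le_log_of_pow_le (by norm_num)
        simpa using h8
      have e : Nat.log 2 (k / 7) - 2 + 2 = Nat.log 2 (k / 7) := by omega
      rw [e]
      have := Nat.pow_log_le_self 2 (x := k / 7) (by omega)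
      omega
    · have h3 : 3 ≤ Nat.log 2 (k / 7) := by
        apply Nat.le_log_of_pow_le (by norm_num)
        simpa using h8
      have e : Nat.log 2 (k / 7) - 2 + 3 = Nat.log 2 (k / 7) + 1 := by omega
      rw [e]
      have := Nat.lt_pow_succ_log_self (b := 2) (by norm_num) (k / 7)
      omega
  have hN := numPrefixes_ge hβ hr j hj k hj1
  have ha : 4 ≤ 2 ^ (j + 1) := by
    calc 4 = 2 ^ 2 := by norm_num
      _ ≤ 2 ^ (j + 1) := Nat.pow_le_pow_right (by norm_num) (by omega)
  have hk3 : 2 ^ (j + 3) = 4 * 2 ^ (j + 1) := by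
    rw [show j + 3 = (j + 1) + 2 by ring, pow_add]; ring
  have hlog : ((2 ^ (j + 1) - 2 : ℕ) : ℝ) ≤ Real.logb 2 (numPrefixes k (val β main) β) := by
    rw [Real.le_logb_iff_rpow_le (by norm_num)]
    · rw [Real.rpow_natCast]
      exact_mod_cast hN
    · have : 0 < numPrefixes k (val β main) β := lt_of_lt_of_le (by positivity) hN
      exact_mod_cast this
  have hkpos : (0 : ℝ) < k := by
    have : 0 < k := by omega
    exact_mod_cast this
  rw [le_div_iff₀ hkpos]
  refine le_trans ?_ hlog
  have h5 : k ≤ 56 * (2 ^ (j + 1) - 2) := by omega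
  have h6 : (k : ℝ) ≤ 56 * ((2 ^ (j + 1) - 2 : ℕ) : ℝ) := by exact_mod_cast h5
  linarith

theorem lowerGrowth_pos {β : ℝ} (hβ : 1 < β) (hr : β ^ 4 = β ^ 3 + 2 * β ^ 2 - 1) :
    0 < lowerGrowth (val β main) β := by
  have h1 : (1 / 56 : ℝ) ≤ lowerGrowth (val β main) β := by
    unfold lowerGrowth
    apply le_liminf_of_le
    · refine Filter.IsBoundedUnder.isCoboundedUnder_ge ?_
      refine ⟨1, ?_⟩
      rw [eventually_map]
      filter_upwards [eventually_ge_atTop 56] with k hk
      have hkpos : (0 : ℝ) < k := by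
        have : 0 < k := by omega
        exact_mod_cast this
      have hr1 := ratio_ge hβ hr k hk
      rw [div_le_one hkpos]
      have hle := numPrefixes_le (β := β) (x := val β main) k
      have hpos : (0 : ℝ) < (numPrefixes k (val β main) β : ℝ) := by
        by_contra hc
        have h0 : (numPrefixes k (val β main) β : ℝ) = 0 := by
          have : (0 : ℝ) ≤ (numPrefixes k (val β main) β : ℝ) := Nat.cast_nonneg _
          linarith
        rw [h0] at hr1
        simp at hr1
        linarith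
      rw [Real.logb_le_iff_le_rpow (by norm_num) hpos, Real.rpow_natCast]
      exact_mod_cast hle
    · filter_upwards [eventually_ge_atTop 56] with k hk
      exact ratio_ge hβ hr k hk
  linarith

theorem exists_beta : ∃ β : ℝ, 1.9051 ≤ β ∧ β ≤ 1.9052 ∧ β ^ 4 = β ^ 3 + 2 * β ^ 2 - 1 := by
  have hc : ContinuousOn (fun t : ℝ => t ^ 4 - t ^ 3 - 2 * t ^ 2 + 1) (Set.Icc 1.9051 1.9052) := by
    fun_prop
  have h := intermediate_value_Icc (by norm_num : (1.9051 : ℝ) ≤ 1.9052) hc
  have hmem : (0 : ℝ) ∈ Set.Icc ((fun t : ℝ => t ^ 4 - t ^ 3 - 2 * t ^ 2 + 1) 1.9051)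
      ((fun t : ℝ => t ^ 4 - t ^ 3 - 2 * t ^ 2 + 1) 1.9052) := by
    constructor <;> norm_num
  obtain ⟨β, hβ, h0⟩ := h hmem
  refine ⟨β, hβ.1, hβ.2, ?_⟩
  simp only at h0
  linarith

/-- **Disproof of the conjecture.** There are `β ∈ (1,2)` and `x ∈ I_β` such that the lower growth
rate of the number of `k`-prefixes of `x` is positive (at least `1/56`), while the set of all
`β`-expansions of `x` is countable, hence of Hausdorff dimension zero. -/
theorem result : ∃ β : ℝ, 1 < β ∧ β < 2 ∧ ∃ x ∈ Set.Icc (0 : ℝ) (1 / (β - 1)),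
    0 < lowerGrowth x β ∧ dimH (Expansions β x) = 0 ∧ (Expansions β x).Countable := by
  obtain ⟨β, h1, h2, hr⟩ := exists_beta
  have hβ : 1 < β := by linarith
  have hcount := countable_expansions h1 h2 hr
  exact ⟨β, hβ, by linarith, val β main, ⟨val_nonneg hβ _, val_le hβ _⟩,
    lowerGrowth_pos hβ hr, hcount.dimH_zero, hcount⟩

end Pool.Agent.Results.MP_523de7_an.CountableExpansions
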